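import Pool.Agent.Helper456.C4Asym

/-!
# The Erdős–Hajnal exponent of the 4-cycle is at most 2/5
-/

namespace Pool.Agent.Results.MP_3ced39_co.C4TwoFifths

/-- `hom(G)`: the larger of the independence number and the clique number. -/
noncomputable def homG {V : Type} (G : SimpleGraph V) : ℕ := max G.indepNum G.cliqueNum

/-- `hom(n,H)`: the minimum of `hom(G)` over the graphs `G` on `n` vertices with no induced copy
of `H`. -/
noncomputable def homMin {U : Type} (n : ℕ) (H : SimpleGraph U) : ℕ :=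
  sInf {k | ∃ G : SimpleGraph (Fin n), ¬ H.IsIndContained G ∧ homG G = k}

/-- the set of `e > 0` such that `hom(n,H) ≥ n^e` for all large `n` -/
def exponents {U : Type} (H : SimpleGraph U) : Set ℝ :=
  {e | 0 < e ∧ ∃ n0 : ℕ, ∀ n : ℕ, n0 ≤ n → (n : ℝ) ^ e ≤ (homMin n H : ℝ)}

/-- `ε(H)` -/
noncomputable def epsilon {U : Type} (H : SimpleGraph U) : ℝ := sSup (exponents H)

/-- For every `n ≥ 2` there is an induced-`C₄`-free graph on `n` vertices with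
`hom(G) ≤ 20000 n^(2/5) (log n)^2`; hence `hom(n,C₄)` obeys the same bound, every `e` in the set
defining `ε(C₄)` is at most `2/5`, and `ε(C₄) ≤ 2/5`. -/
theorem result :
    (∀ n : ℕ, 2 ≤ n → ∃ G : SimpleGraph (Fin n),
      ¬ (SimpleGraph.cycleGraph 4).IsIndContained G ∧
      (homG G : ℝ) ≤ 20000 * (n : ℝ) ^ (2 / 5 : ℝ) * (Real.log n) ^ 2) ∧
    (∀ n : ℕ, 2 ≤ n → (homMin n (SimpleGraph.cycleGraph 4) : ℝ) ≤
      20000 * (n : ℝ) ^ (2 / 5 : ℝ) * (Real.log n) ^ 2) ∧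
    (∀ e ∈ exponents (SimpleGraph.cycleGraph 4), e ≤ 2 / 5) ∧
    epsilon (SimpleGraph.cycleGraph 4) ≤ 2 / 5 := by
  have h1 : ∀ n : ℕ, 2 ≤ n → ∃ G : SimpleGraph (Fin n),
      ¬ (SimpleGraph.cycleGraph 4).IsIndContained G ∧
      (homG G : ℝ) ≤ 20000 * (n : ℝ) ^ (2 / 5 : ℝ) * (Real.log n) ^ 2 :=
    fun n hn => Pool.Agent.Helper456.C4.exists_graph n hn
  have h2 : ∀ n : ℕ, 2 ≤ n → (homMin n (SimpleGraph.cycleGraph 4) : ℝ) ≤
      20000 * (n : ℝ) ^ (2 / 5 : ℝ) * (Real.log n) ^ 2 := by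
    intro n hn
    obtain ⟨G, hG1, hG2⟩ := h1 n hn
    refine le_trans ?_ hG2
    have h4 : homMin n (SimpleGraph.cycleGraph 4) ≤ homG G := Nat.sInf_le ⟨G, hG1, rfl⟩
    exact_mod_cast h4
  have h3 : ∀ e ∈ exponents (SimpleGraph.cycleGraph 4), e ≤ 2 / 5 := by
    rintro e ⟨-, n0, he⟩
    exact Pool.Agent.Helper456.C4.exponent_le
      (fun n => (homMin n (SimpleGraph.cycleGraph 4) : ℝ)) h2 e n0 he
  exact ⟨h1, h2, h3, Real.sSup_le h3 (by norm_num)⟩

end Pool.Agent.Results.MP_3ced39_co.C4TwoFifths
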